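import Mathlib

/-! BQN2-CONV, first part: quotients of regular local rings. -/

set_option autoImplicit false

namespace Pool.Agent.W822.BQN

open IsLocalRing Set

theorem reg_quot {R : Type} [CommRing R] [IsRegularLocalRing R] {k : ℕ} (y : Fin k → R)
    (hy : ∀ i, y i ∈ maximalIdeal R)
    (hli : ∀ r : Fin k → R, ∑ i, r i * y i ∈ maximalIdeal R ^ 2 → ∀ i, r i ∈ maximalIdeal R) :
    IsRegularLocalRing (R ⧸ Ideal.span (Set.range y)) := by
  classical
  let c : Fin k → CotangentSpace R := fun i => (maximalIdeal R).toCotangent ⟨y i, hy i⟩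
  have hc : LinearIndependent (ResidueField R) c := by
    rw [Fintype.linearIndependent_iff]
    intro g hg i
    choose r hr using fun i => IsLocalRing.residue_surjective (g i)
    have h1 : (maximalIdeal R).toCotangent (∑ i, r i • (⟨y i, hy i⟩ : maximalIdeal R)) = 0 := by
      rw [map_sum, ← hg]
      apply Finset.sum_congr rfl
      intro i _
      rw [map_smul, ← hr i]
      rfl
    rw [Ideal.toCotangent_eq_zero] at h1
    have h2 : ∑ i, r i * y i ∈ maximalIdeal R ^ 2 := by simpa using h1
    have h3 := hli r h2 i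
    rw [← hr i]
    exact (IsLocalRing.residue_eq_zero_iff _).2 h3
  have hs := hc.linearIndepOn_id
  let b := Module.Basis.extend hs
  obtain ⟨t, ht⟩ : ∃ t, t = hs.extend (Set.subset_univ _) := ⟨_, rfl⟩
  have ht1 : Set.range c ⊆ t := by
    rw [ht]
    exact hs.subset_extend _
  have htf : t.Finite := by
    rw [ht]
    exact Module.Finite.finite_basis b
  have htc : t.ncard = Module.finrank (ResidueField R) (CotangentSpace R) := by
    rw [Module.finrank_eq_nat_card_basis b, ht]
    rfl
  have hspan : Submodule.span (ResidueField R) t = ⊤ := by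
    rw [ht, ← Module.Basis.range_extend hs]
    exact b.span_eq
  obtain ⟨g, hg⟩ : ∃ g : CotangentSpace R → maximalIdeal R,
      ∀ v, (maximalIdeal R).toCotangent (g v) = v :=
    ⟨Function.surjInv (Ideal.toCotangent_surjective _), Function.surjInv_eq _⟩
  let Z : Set (maximalIdeal R) := g '' (t \ Set.range c)
  let Y : Set (maximalIdeal R) := Set.range (fun i => (⟨y i, hy i⟩ : maximalIdeal R))
  have hYZ : Submodule.span R (Y ∪ Z) = ⊤ := by
    rw [← CotangentSpace.span_image_eq_top_iff, eq_top_iff, ← hspan]
    apply Submodule.span_mono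
    intro v hv
    by_cases hvc : v ∈ Set.range c
    · obtain ⟨i, rfl⟩ := hvc
      exact ⟨⟨y i, hy i⟩, Or.inl ⟨i, rfl⟩, rfl⟩
    · exact ⟨g v, Or.inr ⟨v, ⟨hv, hvc⟩, rfl⟩, hg v⟩
  have hIm : Ideal.span (Set.range y) ≤ maximalIdeal R := by
    rw [Ideal.span_le]
    rintro _ ⟨i, rfl⟩
    exact hy i
  have hnt : Nontrivial (R ⧸ Ideal.span (Set.range y)) := by
    apply Ideal.Quotient.nontrivial_iff.2
    intro h
    rw [h] at hIm
    exact (maximalIdeal.isMaximal R).ne_top (top_le_iff.1 hIm)
  have hloc : IsLocalRing (R ⧸ Ideal.span (Set.range y)) :=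
    IsLocalRing.of_surjective' (Ideal.Quotient.mk _) Ideal.Quotient.mk_surjective
  set I := Ideal.span (Set.range y) with hI
  have hmk : ∀ z ∈ maximalIdeal R, Ideal.Quotient.mk I z ∈ maximalIdeal (R ⧸ I) := by
    intro z hz
    rw [mem_maximalIdeal, mem_nonunits_iff]
    intro h
    obtain ⟨w, hw⟩ := h.exists_right_inv
    obtain ⟨w, rfl⟩ := Ideal.Quotient.mk_surjective w
    rw [← map_mul, ← map_one (Ideal.Quotient.mk I), Ideal.Quotient.eq] at hw
    have h1 := hIm hw
    have h2 : (1 : R) ∈ maximalIdeal R := by
      have h3 := (maximalIdeal R).sub_mem ((maximalIdeal R).mul_mem_right w hz) h1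
      simpa using h3
    exact (maximalIdeal.isMaximal R).ne_top ((Ideal.eq_top_iff_one _).2 h2)
  have hmax : maximalIdeal (R ⧸ I) =
      Submodule.span (R ⧸ I) ((fun z : maximalIdeal R => Ideal.Quotient.mk I (z : R)) '' Z) := by
    apply le_antisymm
    · intro x hx
      obtain ⟨x, rfl⟩ := Ideal.Quotient.mk_surjective x
      have hxm : x ∈ maximalIdeal R := by
        rw [mem_maximalIdeal, mem_nonunits_iff] at hx ⊢
        exact fun h => hx (h.map _)
      have h1 : (⟨x, hxm⟩ : maximalIdeal R) ∈ Submodule.span R (Y ∪ Z) := by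
        rw [hYZ]
        trivial
      have h2 : ∀ z : maximalIdeal R, z ∈ Submodule.span R (Y ∪ Z) →
          Ideal.Quotient.mk I (z : R) ∈ Submodule.span (R ⧸ I)
            ((fun z : maximalIdeal R => Ideal.Quotient.mk I (z : R)) '' Z) := by
        intro z hz
        induction hz using Submodule.span_induction with
        | mem z hz =>
          rcases hz with ⟨i, rfl⟩ | hz
          · have h3 : Ideal.Quotient.mk I (y i) = 0 := by
              rw [Ideal.Quotient.eq_zero_iff_mem, hI]
              exact Ideal.subset_span ⟨i, rfl⟩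
            show Ideal.Quotient.mk I (y i) ∈ _
            rw [h3]
            exact Submodule.zero_mem _
          · exact Submodule.subset_span ⟨z, hz, rfl⟩
        | zero => simp
        | add a b _ _ ha hb =>
          rw [Submodule.coe_add, map_add]
          exact Submodule.add_mem _ ha hb
        | smul r a _ ha =>
          rw [Submodule.coe_smul, smul_eq_mul, map_mul]
          exact Submodule.smul_mem _ _ ha
      exact h2 _ h1
    · rw [Submodule.span_le]
      rintro _ ⟨z, _, rfl⟩
      exact hmk z z.2
  apply IsRegularLocalRing.of_spanFinrank_maximalIdeal_le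
  have hZf : Z.Finite := (htf.subset Set.sdiff_subset).image g
  have h1 : (maximalIdeal (R ⧸ I)).spanFinrank ≤ t.ncard - k := by
    rw [hmax]
    refine (Submodule.spanFinrank_span_le_ncard_of_finite (hZf.image _)).trans ?_
    refine (Set.ncard_image_le hZf).trans ((Set.ncard_image_le (htf.subset Set.sdiff_subset)).trans ?_)
    rw [Set.ncard_sdiff ht1 (Set.finite_range c)]
    have h2 : (Set.range c).ncard = k := by
      rw [← Set.image_univ, Set.ncard_image_of_injective _ hc.injective, Set.ncard_univ]
      simp
    rw [h2]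
  have h2 : k ≤ t.ncard := by
    rw [htc]
    have h3 := hc.fintype_card_le_finrank
    simpa using h3
  have h3 : ((t.ncard : ℕ) : WithBot ℕ∞) ≤ ringKrullDim (R ⧸ I) + k := by
    rw [htc, (IsRegularLocalRing.iff_finrank_cotangentSpace R).1 inferInstance]
    refine (ringKrullDim_le_ringKrullDim_quotient_add_card (Finset.univ.image y) ?_).trans ?_
    · intro z hz
      rw [Finset.coe_image, Finset.coe_univ, Set.image_univ] at hz
      obtain ⟨i, rfl⟩ := hz
      rw [Ring.jacobson_eq_sInf_isMaximal]
      simp only [SetLike.mem_coe, Ideal.mem_sInf]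
      intro J hJ
      rw [IsLocalRing.eq_maximalIdeal hJ]
      exact hy i
    · have h4 : Ideal.span ((Finset.univ.image y : Finset R) : Set R) = I := by
        rw [Finset.coe_image, Finset.coe_univ, Set.image_univ]
      rw [h4]
      have h5 : (Finset.univ.image y).card ≤ k := by
        refine Finset.card_image_le.trans ?_
        simp
      gcongr
  have h4 : ((t.ncard - k : ℕ) : WithBot ℕ∞) ≤ ringKrullDim (R ⧸ I) := by
    have h5 : (0 : WithBot ℕ∞) ≤ ringKrullDim (R ⧸ I) := ringKrullDim_nonneg_of_nontrivial
    generalize ringKrullDim (R ⧸ I) = e at h3 h5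
    cases e with
    | bot => simp at h5
    | coe e =>
      cases e with
      | top => exact le_top
      | coe e =>
        have h6 : t.ncard ≤ e + k := by exact_mod_cast h3
        have h7 : t.ncard - k ≤ e := by omega
        exact WithBot.coe_le_coe.2 (Nat.cast_le.2 h7)
  exact le_trans (by exact_mod_cast h1) h4

theorem reg_surj {R S : Type} [CommRing R] [CommRing S] [IsRegularLocalRing R] {k : ℕ}
    (y : Fin k → R) (hy : ∀ i, y i ∈ maximalIdeal R)
    (hli : ∀ r : Fin k → R, ∑ i, r i * y i ∈ maximalIdeal R ^ 2 → ∀ i, r i ∈ maximalIdeal R)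
    (f : R →+* S) (hf : Function.Surjective f) (hk : RingHom.ker f = Ideal.span (Set.range y)) :
    IsRegularLocalRing S := by
  have h1 := reg_quot y hy hli
  have h2 := IsRegularLocalRing.of_ringEquiv (Ideal.quotEquivOfEq hk.symm)
  exact IsRegularLocalRing.of_ringEquiv (RingHom.quotientKerEquivOfSurjective hf)

end Pool.Agent.W822.BQN
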