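import Pool.Agent.W822.BQN.A

/-! BQN2-CONV, abstract version of the descent of regularity. -/

set_option autoImplicit false

namespace Pool.Agent.W822.BQN

open IsLocalRing Set

noncomputable section

variable {D E : Type} [CommRing D] [CommRing E] (π : D →+* E) (hπ : Function.Surjective π)
  {k : ℕ} (x : Fin k → D) (hker : ∀ d, π d = 0 → d ∈ Ideal.span (Set.range x))
  (hx : ∀ i, π (x i) = 0) (P : Ideal E) [P.IsPrime]

/-- the localisation of `π` -/
def fz : Localization.AtPrime (P.comap π) →+* Localization.AtPrime P :=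
  Localization.localRingHom (P.comap π) P π rfl

/-- the variables in the local ring -/
def yy (i : Fin k) : Localization.AtPrime (P.comap π) :=
  algebraMap D _ (x i)

include hπ in
theorem fz_surj : Function.Surjective (fz π P) := by
  intro s
  obtain ⟨e, t, rfl⟩ := IsLocalization.exists_mk'_eq P.primeCompl s
  obtain ⟨d, rfl⟩ := hπ e
  obtain ⟨t, ht⟩ := t
  obtain ⟨t, rfl⟩ := hπ t
  refine ⟨IsLocalization.mk' _ d (⟨t, ht⟩ : (P.comap π).primeCompl), ?_⟩
  exact Localization.localRingHom_mk' (P.comap π) P π rfl d ⟨t, ht⟩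

include hπ hker hx in
theorem fz_ker : RingHom.ker (fz π P) = Ideal.span (Set.range (yy π x P)) := by
  apply le_antisymm
  · intro z hz
    rw [RingHom.mem_ker] at hz
    obtain ⟨d, s, rfl⟩ := IsLocalization.exists_mk'_eq (P.comap π).primeCompl z
    have h1 : fz π P (IsLocalization.mk' _ d s) = _ :=
      Localization.localRingHom_mk' (P.comap π) P π rfl d s
    rw [h1, IsLocalization.mk'_eq_zero_iff] at hz
    obtain ⟨⟨m, hm⟩, hmd⟩ := hz
    obtain ⟨t, rfl⟩ := hπ m
    change π t * π d = 0 at hmd
    rw [← map_mul] at hmd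
    have h2 := hker _ hmd
    have h3 : algebraMap D (Localization.AtPrime (P.comap π)) (t * d) ∈
        Ideal.span (Set.range (yy π x P)) := by
      have h4 := Ideal.mem_map_of_mem (algebraMap D (Localization.AtPrime (P.comap π))) h2
      rw [Ideal.map_span, ← Set.range_comp] at h4
      exact h4
    have ht : t ∈ (P.comap π).primeCompl := hm
    have h5 : IsUnit (algebraMap D (Localization.AtPrime (P.comap π)) t) :=
      IsLocalization.map_units _ (⟨t, ht⟩ : (P.comap π).primeCompl)
    have h6 : algebraMap D (Localization.AtPrime (P.comap π)) d ∈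
        Ideal.span (Set.range (yy π x P)) := by
      rw [map_mul] at h3
      exact (Ideal.unit_mul_mem_iff_mem _ h5).1 h3
    rw [IsLocalization.mk'_eq_mul_mk'_one]
    exact Ideal.mul_mem_right _ _ h6
  · rw [Ideal.span_le]
    rintro _ ⟨i, rfl⟩
    show fz π P (yy π x P i) = 0
    have h1 : fz π P (yy π x P i) = algebraMap _ _ (π (x i)) :=
      Localization.localRingHom_to_map (P.comap π) P π rfl _
    rw [h1, hx, map_zero]

variable (tv : Fin k → D →+* DualNumber P.ResidueField)
  (htv1 : ∀ j i, tv j (x i) = if i = j then DualNumber.eps else 0)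
  (htv2 : ∀ j d, (tv j d).fst = algebraMap E P.ResidueField (π d))

include htv2 in
theorem tv_unit (j : Fin k) (d : (P.comap π).primeCompl) : IsUnit (tv j d) := by
  rw [TrivSqZeroExt.isUnit_iff_isUnit_fst, htv2, isUnit_iff_ne_zero]
  intro h
  rw [Ideal.algebraMap_residueField_eq_zero] at h
  exact d.2 h

/-- tangent vectors of the local ring -/
def tl (j : Fin k) : Localization.AtPrime (P.comap π) →+* DualNumber P.ResidueField :=
  IsLocalization.lift (M := (P.comap π).primeCompl) (tv_unit π P tv htv2 j)

theorem tl_alg (j : Fin k) (d : D) :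
    tl π P tv htv2 j (algebraMap _ _ d) = tv j d :=
  IsLocalization.lift_eq _ _

include htv1 in
theorem tl_y (j i : Fin k) :
    tl π P tv htv2 j (yy π x P i) = if i = j then DualNumber.eps else 0 := by
  rw [← htv1 j i]
  exact tl_alg π P tv htv2 j _

theorem tl_fst (j : Fin k) (z : Localization.AtPrime (P.comap π))
    (hz : z ∈ maximalIdeal (Localization.AtPrime (P.comap π))) :
    (tl π P tv htv2 j z).fst = 0 := by
  have h : maximalIdeal (Localization.AtPrime (P.comap π)) ≤ RingHom.ker
      ((TrivSqZeroExt.fstHom P.ResidueField P.ResidueField P.ResidueField).toRingHom.comp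
        (tl π P tv htv2 j)) := by
    rw [← Localization.AtPrime.map_eq_maximalIdeal, Ideal.map_le_iff_le_comap]
    intro d hd
    show (tl π P tv htv2 j (algebraMap _ _ d)).fst = 0
    rw [tl_alg, htv2, Ideal.algebraMap_residueField_eq_zero]
    exact hd
  exact h hz

theorem tl_sq (j : Fin k) (z : Localization.AtPrime (P.comap π))
    (hz : z ∈ maximalIdeal (Localization.AtPrime (P.comap π)) ^ 2) :
    tl π P tv htv2 j z = 0 := by
  have h : maximalIdeal (Localization.AtPrime (P.comap π)) ^ 2 ≤
      RingHom.ker (tl π P tv htv2 j) := by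
    rw [pow_two, Ideal.mul_le]
    intro a ha b hb
    rw [RingHom.mem_ker, map_mul]
    ext
    · rw [TrivSqZeroExt.fst_mul, tl_fst π P tv htv2 j a ha, zero_mul]
      rfl
    · rw [TrivSqZeroExt.snd_mul, tl_fst π P tv htv2 j a ha, tl_fst π P tv htv2 j b hb]
      simp
  exact h hz

include hx in
theorem yy_mem (i : Fin k) : yy π x P i ∈ maximalIdeal (Localization.AtPrime (P.comap π)) := by
  rw [← Localization.AtPrime.map_eq_maximalIdeal]
  apply Ideal.mem_map_of_mem
  show π (x i) ∈ P
  rw [hx]
  exact P.zero_mem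

include htv1 htv2 in
theorem yy_ind (r : Fin k → Localization.AtPrime (P.comap π))
    (h : ∑ i, r i * yy π x P i ∈ maximalIdeal (Localization.AtPrime (P.comap π)) ^ 2)
    (j : Fin k) : r j ∈ maximalIdeal (Localization.AtPrime (P.comap π)) := by
  have h1 := tl_sq π P tv htv2 j _ h
  rw [map_sum, Finset.sum_eq_single j] at h1
  · rw [map_mul, tl_y π x P tv htv1, if_pos rfl] at h1
    have h2 := congrArg TrivSqZeroExt.snd h1
    rw [TrivSqZeroExt.snd_mul] at h2
    simp only [DualNumber.snd_eps, DualNumber.fst_eps, smul_eq_mul, mul_one, TrivSqZeroExt.snd_zero,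
      MulOpposite.op_zero, zero_smul, add_zero] at h2
    rw [mem_maximalIdeal, mem_nonunits_iff]
    intro h3
    have h4 := (TrivSqZeroExt.isUnit_iff_isUnit_fst.1 (h3.map (tl π P tv htv2 j)))
    rw [h2] at h4
    exact not_isUnit_zero h4
  · intro i _ hi
    rw [map_mul, tl_y π x P tv htv1, if_neg hi, mul_zero]
  · intro h2
    exact absurd (Finset.mem_univ _) h2

include hπ hker hx htv1 htv2 in
theorem regP [IsRegularLocalRing (Localization.AtPrime (P.comap π))] :
    IsRegularLocalRing (Localization.AtPrime P) :=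
  reg_surj (yy π x P) (yy_mem π x hx P) (fun r h => yy_ind π x P tv htv1 htv2 r h)
    (fz π P) (fz_surj π hπ P) (fz_ker π hπ x hker hx P)

end

end Pool.Agent.W822.BQN
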