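import Pool.Agent.W822.BQN.A2
import Pool.Agent.H94R2.BQ.Q

/-! BQN2-CONV, second part: the ring `C[x_0,...,x_n]/(x_0 ⋯ x_n - u)` along `x = 0`. -/

set_option autoImplicit false

namespace Pool.Agent.W822.BQN

open IsLocalRing Set BQ

noncomputable section

variable {C : Type} [CommRing C] (u : C) (n : ℕ)

theorem mk_u : (Ideal.Quotient.mk (Ideal.span {u})) u = 0 :=
  Ideal.Quotient.eq_zero_iff_mem.2 (Ideal.mem_span_singleton_self u)

/-- the map killing all variables -/
def pz : Semi C u n →+* C ⧸ Ideal.span {u} :=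
  Q.lft C u n (Ideal.Quotient.mk _) (fun _ => 0) (by
    rw [mk_u, Finset.prod_const, Finset.card_univ, Fintype.card_fin, zero_pow (Nat.succ_ne_zero n)])

theorem pz_C (c : C) : pz u n (Q.pr C u n (MvPolynomial.C c)) = Ideal.Quotient.mk _ c :=
  Q.lft_C C u n _ _ _ c

theorem pz_X (i : Fin (n + 1)) : pz u n (Q.pr C u n (MvPolynomial.X i)) = 0 :=
  Q.lft_X C u n _ _ _ i

theorem pz_surj : Function.Surjective (pz u n) := by
  intro e
  obtain ⟨c, rfl⟩ := Ideal.Quotient.mk_surjective e
  exact ⟨_, pz_C u n c⟩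

theorem pr_sub (p : MvPolynomial (Fin (n + 1)) C) :
    Q.pr C u n p - Q.pr C u n (MvPolynomial.C (MvPolynomial.constantCoeff p)) ∈
      Ideal.span (Set.range fun i : Fin (n + 1) => Q.pr C u n (MvPolynomial.X i)) := by
  induction p using MvPolynomial.induction_on with
  | C a => simp
  | add p q hp hq =>
    have h : Q.pr C u n (p + q) -
        Q.pr C u n (MvPolynomial.C (MvPolynomial.constantCoeff (p + q))) =
        (Q.pr C u n p - Q.pr C u n (MvPolynomial.C (MvPolynomial.constantCoeff p))) +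
        (Q.pr C u n q - Q.pr C u n (MvPolynomial.C (MvPolynomial.constantCoeff q))) := by
      simp only [map_add]
      ring
    rw [h]
    exact Ideal.add_mem _ hp hq
  | mul_X p i _ =>
    have h : Q.pr C u n (p * MvPolynomial.X i) -
        Q.pr C u n (MvPolynomial.C (MvPolynomial.constantCoeff (p * MvPolynomial.X i))) =
        Q.pr C u n p * Q.pr C u n (MvPolynomial.X i) := by
      simp [map_mul]
    rw [h]
    exact Ideal.mul_mem_left _ _ (Ideal.subset_span ⟨i, rfl⟩)

theorem pz_ker {d : Semi C u n} (hd : pz u n d = 0) :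
    d ∈ Ideal.span (Set.range fun i : Fin (n + 1) => Q.pr C u n (MvPolynomial.X i)) := by
  obtain ⟨p, rfl⟩ : ∃ p, Q.pr C u n p = d := Ideal.Quotient.mk_surjective d
  have h1 := pr_sub u n p
  have hle : Ideal.span (Set.range fun i : Fin (n + 1) => Q.pr C u n (MvPolynomial.X i)) ≤
      RingHom.ker (pz u n) := by
    rw [Ideal.span_le]
    rintro _ ⟨i, rfl⟩
    exact pz_X u n i
  have h2 := hle h1
  rw [RingHom.mem_ker, map_sub, hd, zero_sub, neg_eq_zero, pz_C,
    Ideal.Quotient.eq_zero_iff_mem, Ideal.mem_span_singleton] at h2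
  obtain ⟨w, hw⟩ := h2
  have h3 : Q.pr C u n (MvPolynomial.C (MvPolynomial.constantCoeff p)) ∈
      Ideal.span (Set.range fun i : Fin (n + 1) => Q.pr C u n (MvPolynomial.X i)) := by
    have h5 : (∏ i, Q.pr C u n (MvPolynomial.X i)) ∈
        Ideal.span (Set.range fun i : Fin (n + 1) => Q.pr C u n (MvPolynomial.X i)) :=
      Ideal.mem_of_dvd _ (Finset.dvd_prod_of_mem (fun i => Q.pr C u n (MvPolynomial.X i))
        (Finset.mem_univ 0)) (Ideal.subset_span ⟨0, rfl⟩)
    rw [hw, map_mul, map_mul, ← Q.pr_prod]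
    exact Ideal.mul_mem_right _ _ h5
  have h4 := Ideal.add_mem _ h1 h3
  rwa [sub_add_cancel] at h4

variable (P : Ideal (C ⧸ Ideal.span {u})) [P.IsPrime]

/-- tangent vectors -/
def tv (hn : 0 < n) (j : Fin (n + 1)) : Semi C u n →+* DualNumber P.ResidueField :=
  Q.lft C u n ((TrivSqZeroExt.inlHom P.ResidueField P.ResidueField).comp
    ((algebraMap (C ⧸ Ideal.span {u}) P.ResidueField).comp (Ideal.Quotient.mk _)))
    (fun i => if i = j then DualNumber.eps else 0) (by
      have h1 : ∃ i : Fin (n + 1), i ≠ j := by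
        by_cases h : j = 0
        · refine ⟨⟨1, by omega⟩, ?_⟩
          rw [h]
          intro h2
          have := congrArg Fin.val h2
          simp at this
        · exact ⟨0, fun h2 => h h2.symm⟩
      obtain ⟨i, hi⟩ := h1
      rw [Finset.prod_eq_zero (Finset.mem_univ i) (if_neg hi)]
      simp)

theorem tv_X (hn : 0 < n) (j i : Fin (n + 1)) :
    tv u n P hn j (Q.pr C u n (MvPolynomial.X i)) = if i = j then DualNumber.eps else 0 :=
  Q.lft_X C u n _ _ _ i

theorem tv_fst (hn : 0 < n) (j : Fin (n + 1)) (d : Semi C u n) :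
    (tv u n P hn j d).fst = algebraMap (C ⧸ Ideal.span {u}) P.ResidueField (pz u n d) := by
  have h : (TrivSqZeroExt.fstHom P.ResidueField P.ResidueField P.ResidueField).toRingHom.comp
      (tv u n P hn j) = (algebraMap (C ⧸ Ideal.span {u}) P.ResidueField).comp (pz u n) := by
    apply Q.hext
    · intro c
      show (tv u n P hn j (Q.pr C u n (MvPolynomial.C c))).fst = _
      rw [RingHom.comp_apply, pz_C]
      have h1 : tv u n P hn j (Q.pr C u n (MvPolynomial.C c)) = _ := Q.lft_C C u n _ _ _ c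
      rw [h1]
      simp
    · intro i
      show (tv u n P hn j (Q.pr C u n (MvPolynomial.X i))).fst = _
      rw [tv_X, RingHom.comp_apply, pz_X, map_zero]
      split_ifs <;> simp
  exact congrArg (fun f => f d) h

end

end Pool.Agent.W822.BQN
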