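import Pool.Agent.W822.BQN.B
import Pool.Agent.W394.BQN.Stm2

/-! BQN2-CONV: if `V[z,x_0,...,x_n]/(x_0 ⋯ x_n - u(z))` is regular, so is `V[z]/(u)`. -/

set_option autoImplicit false

namespace Pool.Agent.W822.BQN

open Polynomial BQ Pool.Agent.W394.BQN

theorem t_CONV : S_CONV := by
  intro V _ _ u _ n hn hreg
  have hN : IsNoetherianRing (V[X] ⧸ Ideal.span {u}) := inferInstance
  rw [isRegularRing_iff]
  intro P _
  have h1 : IsRegularLocalRing (Localization.AtPrime (P.comap (pz u n))) :=
    hreg.isRegularLocalRing_localization _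
  exact regP (pz u n) (pz_surj u n) (fun i => Q.pr V[X] u n (MvPolynomial.X i))
    (fun d hd => pz_ker u n hd) (fun i => pz_X u n i) P (tv u n P hn)
    (fun j i => tv_X u n P hn j i) (fun j d => tv_fst u n P hn j d)

end Pool.Agent.W822.BQN
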